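import Pool.Agent.H87.IS.Stmts

/-!
# Row PSA of the board `isq` (helper70): power series act on torsion modules
-/

set_option autoImplicit false

namespace Pool.Agent.H87.IS

open MvPolynomial

namespace PSAAux

variable {k : Type} [Field k] {σ : Type} {V : Type} [AddCommGroup V] [Module k V]

/-- `N` is a bound for `v` -/
def Bd (ρ : MvPolynomial σ k →ₐ[k] Module.End k V) (N : ℕ) (v : V) : Prop :=
  ∀ m : σ →₀ ℕ, N ≤ m.degree → ρ (monomial m 1) v = 0

theorem Bd.mono {ρ : MvPolynomial σ k →ₐ[k] Module.End k V} {N M : ℕ} {v : V} (h : Bd ρ N v)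
    (hM : N ≤ M) : Bd ρ M v := fun m hm => h m (hM.trans hm)

theorem Bd.mon {ρ : MvPolynomial σ k →ₐ[k] Module.End k V} {N : ℕ} {v : V} (h : Bd ρ N v)
    (m : σ →₀ ℕ) (hm : N ≤ m.degree) (c : k) : ρ (monomial m c) v = 0 := by
  have h1 : monomial m c = c • monomial m (1 : k) := by
    rw [smul_monomial, smul_eq_mul, mul_one]
  rw [h1, map_smul, LinearMap.smul_apply, h m hm, smul_zero]

theorem Bd.kill {ρ : MvPolynomial σ k →ₐ[k] Module.End k V} {N : ℕ} {v : V} (h : Bd ρ N v)
    (p : MvPolynomial σ k) (hp : ∀ m : σ →₀ ℕ, m.degree < N → coeff m p = 0) : ρ p v = 0 := by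
  rw [p.as_sum, map_sum, LinearMap.sum_apply]
  refine Finset.sum_eq_zero fun m hm => h.mon m ?_ _
  by_contra hlt
  exact (mem_support_iff.1 hm) (hp m (not_le.1 hlt))

theorem Bd.eqv {ρ : MvPolynomial σ k →ₐ[k] Module.End k V} {N : ℕ} {v : V} (h : Bd ρ N v)
    (p q : MvPolynomial σ k) (hp : ∀ m : σ →₀ ℕ, m.degree < N → coeff m p = coeff m q) :
    ρ p v = ρ q v := by
  have h1 := h.kill (p - q) (fun m hm => by rw [coeff_sub, hp m hm, sub_self])
  rw [map_sub, LinearMap.sub_apply] at h1
  exact sub_eq_zero.1 h1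

variable [Finite σ]

/-- the action of a power series -/
noncomputable def act (ρ : MvPolynomial σ k →ₐ[k] Module.End k V) (hT : Tor ρ)
    (h : MvPowerSeries σ k) (v : V) : V :=
  ρ (MvPowerSeries.truncTotal (hT v).choose h) v

theorem act_eq (ρ : MvPolynomial σ k →ₐ[k] Module.End k V) (hT : Tor ρ) {N : ℕ} {v : V}
    (hv : Bd ρ N v) (h : MvPowerSeries σ k) (p : MvPolynomial σ k)
    (hp : ∀ m : σ →₀ ℕ, m.degree < N → coeff m p = MvPowerSeries.coeff m h) :
    act ρ hT h v = ρ p v := by
  have h0 : Bd ρ (hT v).choose v := (hT v).choose_spec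
  have hK : Bd ρ (min N (hT v).choose) v := by
    rcases min_choice N (hT v).choose with h1 | h1 <;> rw [h1] <;> assumption
  refine hK.eqv _ _ fun m hm => ?_
  rw [MvPowerSeries.coeff_truncTotal _ (hm.trans_le (min_le_right _ _)),
    hp m (hm.trans_le (min_le_left _ _))]

theorem act_tr (ρ : MvPolynomial σ k →ₐ[k] Module.End k V) (hT : Tor ρ) {N : ℕ} {v : V}
    (hv : Bd ρ N v) (h : MvPowerSeries σ k) :
    act ρ hT h v = ρ (MvPowerSeries.truncTotal N h) v :=
  act_eq ρ hT hv h _ fun _ hm => MvPowerSeries.coeff_truncTotal _ hm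

/-- the action as a linear map -/
noncomputable def actL (ρ : MvPolynomial σ k →ₐ[k] Module.End k V) (hT : Tor ρ)
    (h : MvPowerSeries σ k) : Module.End k V where
  toFun := act ρ hT h
  map_add' v w := by
    obtain ⟨N, hN⟩ := hT v
    obtain ⟨M, hM⟩ := hT w
    have h1 : Bd ρ (max N M) v := Bd.mono hN (le_max_left _ _)
    have h2 : Bd ρ (max N M) w := Bd.mono hM (le_max_right _ _)
    have h3 : Bd ρ (max N M) (v + w) := fun m hm => by rw [map_add, h1 m hm, h2 m hm, add_zero]
    rw [act_tr ρ hT h1, act_tr ρ hT h2, act_tr ρ hT h3, map_add]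
  map_smul' c v := by
    obtain ⟨N, hN⟩ := hT v
    have h3 : Bd ρ N (c • v) := fun m hm => by rw [map_smul, hN m hm, smul_zero]
    rw [act_tr ρ hT hN, act_tr ρ hT h3, map_smul, RingHom.id_apply]

omit [Finite σ] in
theorem comm (ρ : MvPolynomial σ k →ₐ[k] Module.End k V) (p q : MvPolynomial σ k) (v : V) :
    ρ p (ρ q v) = ρ q (ρ p v) := by
  rw [← Module.End.mul_apply, ← Module.End.mul_apply, ← map_mul, ← map_mul, mul_comm]

/-- the algebra homomorphism -/
noncomputable def hom (ρ : MvPolynomial σ k →ₐ[k] Module.End k V) (hT : Tor ρ) :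
    MvPowerSeries σ k →ₐ[k] Module.End k V :=
  AlgHom.ofLinearMap
    { toFun := actL ρ hT
      map_add' := fun h h' => LinearMap.ext fun v => by
        obtain ⟨N, hN⟩ := hT v
        show act ρ hT (h + h') v = act ρ hT h v + act ρ hT h' v
        rw [act_tr ρ hT hN, act_tr ρ hT hN, act_tr ρ hT hN, map_add, map_add,
          LinearMap.add_apply]
      map_smul' := fun c h => LinearMap.ext fun v => by
        obtain ⟨N, hN⟩ := hT v
        show act ρ hT (c • h) v = c • act ρ hT h v
        rw [act_tr ρ hT hN, act_tr ρ hT hN, map_smul, map_smul, LinearMap.smul_apply] }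
    (LinearMap.ext fun v => by
      obtain ⟨N, hN⟩ := hT v
      show act ρ hT 1 v = v
      rw [act_eq ρ hT hN 1 1 (fun m _ => by
        rw [← MvPolynomial.coeff_coe, MvPolynomial.coe_one]), map_one]
      rfl)
    (fun h h' => LinearMap.ext fun v => by
      obtain ⟨N, hN⟩ := hT v
      show act ρ hT (h * h') v = act ρ hT h (act ρ hT h' v)
      have h2 : Bd ρ N (ρ (MvPowerSeries.truncTotal N h') v) := fun m hm => by
        rw [comm, hN m hm, map_zero]
      rw [act_tr ρ hT hN h', act_tr ρ hT h2, ← Module.End.mul_apply, ← map_mul]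
      exact act_eq ρ hT hN _ _ fun m hm =>
        MvPowerSeries.coeff_truncTotal_mul_truncTotal_eq_coeff_mul _ _ hm)

theorem hom_apply (ρ : MvPolynomial σ k →ₐ[k] Module.End k V) (hT : Tor ρ)
    (h : MvPowerSeries σ k) (v : V) : hom ρ hT h v = act ρ hT h v := rfl

end PSAAux

open PSAAux in
theorem PSA : PSAStmt := by
  intro k _ σ _ _ V _ _ ρ hT
  refine ⟨hom ρ hT, ?_, ?_, ?_⟩
  · intro p
    ext v
    obtain ⟨N, hN⟩ := hT v
    rw [hom_apply]
    exact act_eq ρ hT hN _ _ fun m _ => (MvPolynomial.coeff_coe _ _).symm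
  · intro h v N hv hh
    rw [hom_apply, act_eq ρ hT (N := N) hv h 0 (fun m hm => by rw [coeff_zero, hh m hm]),
      map_zero, LinearMap.zero_apply]
  · intro D i hD h v
    obtain ⟨N, hN⟩ := hT v
    have hN1 : Bd ρ (N + 1) v := Bd.mono hN (Nat.le_succ N)
    have hN2 : Bd ρ (N + 1) (D v) := by
      intro m hm
      have h1 := hD (monomial m 1) v
      rw [hN1 m hm, map_zero, pderiv_monomial] at h1
      have h2 : ρ (monomial (m - Finsupp.single i 1) (1 * (m i : k))) v = 0 := by
        by_cases h0 : m i = 0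
        · rw [h0, Nat.cast_zero, mul_zero, monomial_zero, map_zero, LinearMap.zero_apply]
        · refine Bd.mon hN _ ?_ _
          have h3 : (m - Finsupp.single i 1) + Finsupp.single i 1 = m := by
            apply tsub_add_cancel_of_le
            rw [Finsupp.single_le_iff]
            omega
          have h4 := congrArg Finsupp.degree h3
          rw [map_add, Finsupp.degree_single] at h4
          omega
      rw [h2, zero_add] at h1
      exact h1.symm
    rw [hom_apply, hom_apply, hom_apply, act_tr ρ hT hN1, act_tr ρ hT hN2, hD,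
      act_eq ρ hT hN (pd i h) (pderiv i (MvPowerSeries.truncTotal (N + 1) h)) ?_]
    intro m hm
    rw [coeff_pderiv, MvPowerSeries.coeff_truncTotal, mul_comm]
    · rfl
    · rw [map_add, Finsupp.degree_single]
      omega

end Pool.Agent.H87.IS
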